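import Pool.Agent.Helper50.KP.GoalsF

/-! Project KP (MP_5a63b6_lc), packet FLS: a locked system has more colourings than the unknot. -/

set_option autoImplicit false

namespace Pool.Agent.Helper54.KP

open Pool.Agent.Helper50.KP

section

variable {G : Type}

theorem fm_len (a : G) (c : ℕ → G) (n : ℕ) :
    ((List.range n).flatMap fun v => [a, c v]).length = 2 * n := by
  induction n with
  | zero => rfl
  | succ n ih =>
    rw [List.range_succ, List.flatMap_append, List.length_append, ih]
    simp
    ring

theorem fm_get (a : G) (c : ℕ → G) (n v : ℕ) (hv : v < n) :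
    ((List.range n).flatMap fun v => [a, c v])[2 * v + 1]? = some (c v) := by
  induction n with
  | zero => omega
  | succ n ih =>
    rw [List.range_succ, List.flatMap_append]
    rcases Nat.lt_or_ge v n with h | h
    · rw [List.getElem?_append_left (by rw [fm_len]; omega)]
      exact ih h
    · have h1 : v = n := by omega
      subst h1
      rw [List.getElem?_append_right (by rw [fm_len]; omega), fm_len]
      have h2 : 2 * v + 1 - 2 * v = 1 := by omega
      rw [h2]
      simp

end

theorem chs_inj {G : Type} [Group G] (n : ℕ) (a a' : G) (c c' : ℕ → G)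
    (h : chs n a c = chs n a' c') : a = a' ∧ ∀ v < n, c v = c' v := by
  unfold chs at h
  have h1 := (List.append_inj h (by rw [List.length_cons, List.length_cons, fm_len, fm_len])).1
  obtain ⟨h2, h3⟩ := List.cons.inj h1
  refine ⟨inv_injective h2, fun v hv => ?_⟩
  have h4 := congrArg (fun l : List G => l[2 * v + 1]?) h3
  simp only [fm_get _ _ n v hv] at h4
  exact Option.some.inj h4

theorem pa_ne_pb : pa ≠ pb := by decide

/-- **FLS** -/
theorem gFLS (hCRD : CRD) (hPGI : PGI) (hPGA : PGA) (hGEN : GEN) (hBND : BND) : FLS := by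
  intro n ps lk hOk hCons hlk
  classical
  -- constant colourings
  have h1 : ∀ g : Equiv.Perm (Fin 5), Good (sys n ps) (chs n g fun _ => g) [] := by
    intro g
    obtain ⟨hb1, hb2⟩ := hBND (Equiv.Perm (Fin 5)) n g (fun _ => g)
    refine hGEN (Equiv.Perm (Fin 5)) n ps g (fun _ => g) fun v hv => ?_
    obtain ⟨B', hB', -, -⟩ := hPGI (Equiv.Perm (Fin 5)) n (ps v) (bnd g (fun _ => g) n) g
      (hOk v hv) (by omega) (fun e he => by
        obtain ⟨he1, he2, -⟩ := hOk v hv e he
        exact ⟨_, _, hb2 _ he1, hb2 _ he2, Or.inl (inv_mul_cancel g)⟩)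
    exact ⟨B', hB'⟩
  -- the special colouring
  let c : ℕ → Equiv.Perm (Fin 5) := fun v => if lk v = true then pb else pa
  have hct : ∀ v, lk v = true → c v = pb := fun v h => if_pos h
  have hcf : ∀ v, ¬ lk v = true → c v = pa := fun v h => if_neg h
  obtain ⟨hb1, hb2⟩ := hBND (Equiv.Perm (Fin 5)) n pa c
  have hval : ∀ x y : ℕ, x < n → y < n → ¬ (lk x = true ∧ lk y = true) →
      ∃ X Y, (bnd pa c n)[bi n x]? = some X ∧ (bnd pa c n)[bi n y]? = some Y ∧
        (vl X = 1 ∨ vl Y = 1) := by
    intro x y hx hy hxy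
    refine ⟨_, _, hb2 x hx, hb2 y hy, ?_⟩
    by_cases h : lk x = true
    · right
      have h2 : ¬ lk y = true := fun h2 => hxy ⟨h, h2⟩
      rw [hcf y h2]
      exact inv_mul_cancel pa
    · left
      rw [hcf x h]
      exact inv_mul_cancel pa
  have h2 : Good (sys n ps) (chs n pa c) [] := by
    refine hGEN (Equiv.Perm (Fin 5)) n ps pa c fun v hv => ?_
    rcases hCons v hv with ⟨h3, h4⟩ | ⟨h3, A, e, B, h4, h5, h6, h7⟩
    · obtain ⟨B', hB', -, -⟩ := hPGI (Equiv.Perm (Fin 5)) n (ps v) (bnd pa c n) pa
        (hOk v hv) (by omega) (fun e he => by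
          obtain ⟨he1, he2, -⟩ := hOk v hv e he
          exact hval _ _ he1 he2 (h4 e he))
      rw [hcf v (by rw [h3]; decide)]
      exact ⟨B', hB'⟩
    · have hO : ∀ e' ∈ A ++ e :: B, e'.1 < n ∧ e'.2 < n ∧ e'.1 ≠ e'.2 := by
        intro e' he'
        exact hOk v hv e' (by rw [h4]; exact he')
      have hOe := hO e (by simp)
      have hx := hb2 _ hOe.1
      have hy := hb2 _ hOe.2.1
      rw [hct _ h5] at hx
      rw [hct _ h6] at hy
      obtain ⟨B', hB'⟩ := hPGA n A B e (bnd pa c n) hO (by omega) hx hy (fun e' he' => by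
        have he2 : e' ∈ A ++ e :: B := by
          rcases List.mem_append.1 he' with h | h
          · exact List.mem_append_left _ h
          · exact List.mem_append_right _ (List.mem_cons_of_mem _ h)
        obtain ⟨h8, h9, -⟩ := hO e' he2
        exact hval _ _ h8 h9 (h7 e' he'))
      rw [h4, hct v h3]
      exact ⟨B', hB'⟩
  -- the set of 121 lists
  let T0 : Finset (List (Equiv.Perm (Fin 5))) :=
    Finset.univ.image fun g : Equiv.Perm (Fin 5) => chs n g fun _ => g
  have hT0 : T0.card = 120 := by
    have h3 : T0.card = (Finset.univ : Finset (Equiv.Perm (Fin 5))).card := by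
      apply Finset.card_image_of_injective
      intro g g' h
      exact (chs_inj n g g' _ _ h).1
    rw [h3, Finset.card_univ, Fintype.card_perm, Fintype.card_fin]
    rfl
  have hnot : chs n pa c ∉ T0 := by
    intro h
    obtain ⟨g, -, hg⟩ := Finset.mem_image.1 h
    obtain ⟨h3, h4⟩ := chs_inj n g pa (fun _ => g) c hg
    obtain ⟨v, hv, hv2⟩ := hlk
    have h5 := h4 v hv
    rw [hct v hv2, h3] at h5
    exact pa_ne_pb h5
  have hcard : (insert (chs n pa c) T0).card = 121 := by
    rw [Finset.card_insert_of_notMem hnot, hT0]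
  rw [← hcard]
  refine hCRD (Equiv.Perm (Fin 5)) (sys n ps) [] _ fun x hx => ?_
  rcases Finset.mem_insert.1 hx with h | h
  · rw [h]
    exact h2
  · obtain ⟨g, -, hg⟩ := Finset.mem_image.1 h
    rw [← hg]
    exact h1 g

end Pool.Agent.Helper54.KP
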